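import Mathlib

/-!
# Divisibility of weighted sums of binomial power sums

With `f_k^{(r)} = ∑_j binom(k,j)^r` we prove that `2 n` divides
`∑_{k<n} (-1)^{rk} (3k+2) f_k^{(r)}` for all `r ≥ 0` and `n ≥ 1`.
-/

open Finset

namespace Pool.Agent.Results.MP_ede29a_nt.WeightedPowerSums

/-! ## The product of the integers up to `N` prime to `p` -/

/-- product of the `t ≤ N` not divisible by `p` -/
def G (p : ℕ) : ℕ → ℤ
  | 0 => 1
  | N + 1 => if p ∣ N + 1 then G p N else ((N + 1 : ℕ) : ℤ) * G p N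

theorem G_zero (p : ℕ) : G p 0 = 1 := rfl

theorem G_succ_of_dvd {p N : ℕ} (h : p ∣ N + 1) : G p (N + 1) = G p N := by
  simp [G, h]

theorem G_succ_of_not_dvd {p N : ℕ} (h : ¬ p ∣ N + 1) :
    G p (N + 1) = ((N + 1 : ℕ) : ℤ) * G p N := by
  simp only [G, h, if_false]

theorem factorial_eq (p : ℕ) (N : ℕ) :
    (N.factorial : ℤ) = (p : ℤ) ^ (N / p) * ((N / p).factorial : ℤ) * G p N := by
  induction N with
  | zero => simp [G]
  | succ N ih =>
    by_cases h : p ∣ N + 1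
    · rw [G_succ_of_dvd h, Nat.succ_div, if_pos h, Nat.factorial_succ, Nat.factorial_succ]
      have h1 : (N + 1) = p * (N / p + 1) := by
        have := Nat.div_mul_cancel h
        rw [Nat.succ_div, if_pos h] at this
        rw [mul_comm]; exact this.symm
      push_cast
      rw [ih]
      have h2 : ((N : ℤ) + 1) = (p : ℤ) * ((N : ℤ) / p + 1) := by exact_mod_cast h1
      rw [h2]
      ring
    · rw [G_succ_of_not_dvd h, Nat.succ_div, if_neg h, Nat.factorial_succ]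
      push_cast
      rw [ih]
      ring_nf

theorem G_not_dvd {p : ℕ} (hp : p.Prime) (N : ℕ) : ¬ (p : ℤ) ∣ G p N := by
  induction N with
  | zero =>
    rw [G_zero]
    intro h
    have := Int.natCast_dvd_natCast.mp (by simpa using h : ((p : ℕ) : ℤ) ∣ ((1 : ℕ) : ℤ))
    exact hp.one_lt.ne' (Nat.dvd_one.mp this)
  | succ N ih =>
    by_cases h : p ∣ N + 1
    · rw [G_succ_of_dvd h]; exact ih
    · rw [G_succ_of_not_dvd h]
      intro h1
      rcases (Nat.prime_iff_prime_int.mp hp).dvd_or_dvd h1 with h2 | h2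
      · exact h (Int.natCast_dvd_natCast.mp h2)
      · exact ih h2

/-- quasi-periodicity of `G` modulo a multiple `m` of `p` -/
theorem G_add {p m : ℕ} (hpm : p ∣ m) (N : ℕ) :
    G p (m + N) ≡ G p m * G p N [ZMOD m] := by
  induction N with
  | zero => simp [G_zero, Int.ModEq.refl]
  | succ N ih =>
    by_cases h : p ∣ N + 1
    · have h' : p ∣ m + N + 1 := by rw [add_assoc]; exact Dvd.dvd.add hpm h |>.trans (dvd_refl _)
      rw [G_succ_of_dvd h, ← add_assoc, G_succ_of_dvd h']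
      exact ih
    · have h' : ¬ p ∣ m + N + 1 := by
        rw [add_assoc]
        intro hh
        exact h ((Nat.dvd_add_right hpm).mp hh)
      rw [G_succ_of_not_dvd h, ← add_assoc, G_succ_of_not_dvd h']
      have h1 : ((m + N + 1 : ℕ) : ℤ) ≡ ((N + 1 : ℕ) : ℤ) [ZMOD m] := by
        rw [Int.modEq_iff_dvd]
        push_cast
        exact ⟨-1, by ring⟩
      calc ((m + N + 1 : ℕ) : ℤ) * G p (m + N) ≡ ((N + 1 : ℕ) : ℤ) * (G p m * G p N) [ZMOD m] :=
            h1.mul ih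
        _ = G p m * (((N + 1 : ℕ) : ℤ) * G p N) := by ring

theorem G_add_mul {p m : ℕ} (hpm : p ∣ m) (u N : ℕ) :
    G p (m * u + N) ≡ G p m ^ u * G p N [ZMOD m] := by
  induction u with
  | zero => simp [Int.ModEq.refl]
  | succ u ih =>
    have : m * (u + 1) + N = m + (m * u + N) := by ring
    rw [this]
    calc G p (m + (m * u + N)) ≡ G p m * G p (m * u + N) [ZMOD m] := G_add hpm _
      _ ≡ G p m * (G p m ^ u * G p N) [ZMOD m] := (Int.ModEq.refl _).mul ih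
      _ = G p m ^ (u + 1) * G p N := by ring

/-- reflection -/
theorem G_reflect {p n : ℕ} (hpn : p ∣ n) (m η : ℤ)
    (hη : ∀ k l : ℕ, k + l = n → ¬ p ∣ k → (k : ℤ) ≡ η * l [ZMOD m]) (k : ℕ) :
    ∀ l : ℕ, l + k + 1 = n → G p k * G p l ≡ η ^ (k - k / p) * G p (n - 1) [ZMOD m] := by
  induction k with
  | zero =>
    intro l hl
    have : n - 1 = l := by omega
    simp [G_zero, this, Int.ModEq.refl]
  | succ k ih =>
    intro l hl
    have ih' := ih (l + 1) (by omega)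
    have hkn : (k + 1) + (l + 1) = n := by omega
    by_cases h : p ∣ k + 1
    · have h' : p ∣ l + 1 := by
        rw [← Nat.dvd_add_right h, hkn]; exact hpn
      rw [G_succ_of_dvd h'] at ih'
      rw [G_succ_of_dvd h, Nat.succ_div, if_pos h]
      have : k + 1 - (k / p + 1) = k - k / p := by omega
      rw [this]
      exact ih'
    · have h' : ¬ p ∣ l + 1 := by
        intro hh
        apply h
        rw [← Nat.dvd_add_left hh, hkn]; exact hpn
      rw [G_succ_of_not_dvd h'] at ih'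
      rw [G_succ_of_not_dvd h, Nat.succ_div, if_neg h]
      have h3 : k + 1 - (k / p + 0) = (k - k / p) + 1 := by
        have := Nat.div_le_self k p
        omega
      rw [h3, pow_succ]
      have h4 := hη (k + 1) (l + 1) hkn h
      calc ((k + 1 : ℕ) : ℤ) * G p k * G p l ≡ (η * ((l + 1 : ℕ) : ℤ)) * G p k * G p l [ZMOD m] :=
            (h4.mul (Int.ModEq.refl _)).mul (Int.ModEq.refl _)
        _ = η * (G p k * (((l + 1 : ℕ) : ℤ) * G p l)) := by ring
        _ ≡ η * (η ^ (k - k / p) * G p (n - 1)) [ZMOD m] := (Int.ModEq.refl _).mul ih'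
        _ = η ^ (k - k / p) * η * G p (n - 1) := by ring

/-- the symmetric product -/
def P3 (p i j l : ℕ) : ℤ := G p i * G p j * G p l

theorem P3_not_dvd {p : ℕ} (hp : p.Prime) (i j l : ℕ) : ¬ (p : ℤ) ∣ P3 p i j l := by
  unfold P3
  intro h
  rcases (Nat.prime_iff_prime_int.mp hp).dvd_or_dvd h with h2 | h2
  · rcases (Nat.prime_iff_prime_int.mp hp).dvd_or_dvd h2 with h3 | h3
    · exact G_not_dvd hp _ h3
    · exact G_not_dvd hp _ h3
  · exact G_not_dvd hp _ h2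

/-- The product `P3` is Lipschitz on planes `i + j + l = const`. -/
theorem P3_lip {p : ℕ} (s : ℕ) {i j l i' j' l' : ℕ} (hsum : i + j + l = i' + j' + l')
    (hi : i ≡ i' [MOD p ^ s]) (hj : j ≡ j' [MOD p ^ s]) (hl : l ≡ l' [MOD p ^ s]) :
    P3 p i j l ≡ P3 p i' j' l' [ZMOD (p : ℤ) ^ s] := by
  rcases Nat.eq_zero_or_pos s with rfl | hs
  · simp [Int.modEq_one]
  have hpm : p ∣ p ^ s := dvd_pow_self p hs.ne'
  have key : ∀ N : ℕ, G p N ≡ G p (p ^ s) ^ (N / p ^ s) * G p (N % p ^ s) [ZMOD ((p ^ s : ℕ) : ℤ)] := by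
    intro N
    have := G_add_mul hpm (N / p ^ s) (N % p ^ s)
    rwa [Nat.div_add_mod] at this
  have key3 : ∀ i j l : ℕ, P3 p i j l ≡ G p (p ^ s) ^ (i / p ^ s + j / p ^ s + l / p ^ s) *
      (G p (i % p ^ s) * G p (j % p ^ s) * G p (l % p ^ s)) [ZMOD ((p ^ s : ℕ) : ℤ)] := by
    intro i j l
    calc P3 p i j l ≡ (G p (p ^ s) ^ (i / p ^ s) * G p (i % p ^ s)) *
        (G p (p ^ s) ^ (j / p ^ s) * G p (j % p ^ s)) *
        (G p (p ^ s) ^ (l / p ^ s) * G p (l % p ^ s)) [ZMOD ((p ^ s : ℕ) : ℤ)] :=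
          ((key i).mul (key j)).mul (key l)
      _ = _ := by rw [pow_add, pow_add]; ring
  have hdiv : i / p ^ s + j / p ^ s + l / p ^ s = i' / p ^ s + j' / p ^ s + l' / p ^ s ∨ p = 0 := by
    rcases Nat.eq_zero_or_pos p with rfl | hp
    · right; rfl
    left
    have hpos : 0 < p ^ s := by positivity
    have e1 := Nat.div_add_mod i (p ^ s)
    have e2 := Nat.div_add_mod j (p ^ s)
    have e3 := Nat.div_add_mod l (p ^ s)
    have e1' := Nat.div_add_mod i' (p ^ s)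
    have e2' := Nat.div_add_mod j' (p ^ s)
    have e3' := Nat.div_add_mod l' (p ^ s)
    rw [Nat.ModEq] at hi hj hl
    rw [← hi] at e1'
    rw [← hj] at e2'
    rw [← hl] at e3'
    apply Nat.eq_of_mul_eq_mul_left hpos
    rw [mul_add, mul_add, mul_add, mul_add]
    omega
  rcases hdiv with hdiv | hp0
  · have h1 := key3 i j l
    have h2 := key3 i' j' l'
    rw [Nat.ModEq] at hi hj hl
    rw [← hi, ← hj, ← hl, ← hdiv] at h2
    have := h1.trans h2.symm
    simpa using this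
  · subst hp0
    rw [zero_pow hs.ne'] at hi hj hl
    have hi' : i = i' := by simpa [Nat.ModEq] using hi
    have hj' : j = j' := by simpa [Nat.ModEq] using hj
    have hl' : l = l' := by simpa [Nat.ModEq] using hl
    subst hi' hj' hl'
    exact Int.ModEq.refl _

/-! ## Triples -/

/-- triples with `i + j + l + q = n` -/
def T (q n : ℕ) : Finset (ℕ × ℕ × ℕ) :=
  ((range n) ×ˢ (range n) ×ˢ (range n)).filter (fun x => x.1 + x.2.1 + x.2.2 + q = n)

/-- digit triples with `a + b + c + q = p * q'` -/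
def D (p q q' : ℕ) : Finset (ℕ × ℕ × ℕ) :=
  ((range p) ×ˢ (range p) ×ˢ (range p)).filter (fun x => x.1 + x.2.1 + x.2.2 + q = p * q')

theorem mem_T {q n : ℕ} (hq : 1 ≤ q) {x : ℕ × ℕ × ℕ} : x ∈ T q n ↔ x.1 + x.2.1 + x.2.2 + q = n := by
  simp only [T, mem_filter, mem_product, mem_range]
  constructor
  · exact fun h => h.2
  · intro h; refine ⟨⟨?_, ?_, ?_⟩, h⟩ <;> omega

theorem mem_D {p q q' : ℕ} {x : ℕ × ℕ × ℕ} :
    x ∈ D p q q' ↔ (x.1 < p ∧ x.2.1 < p ∧ x.2.2 < p) ∧ x.1 + x.2.1 + x.2.2 + q = p * q' := by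
  simp only [D, mem_filter, mem_product, mem_range]

/-- decomposition of triples according to the lowest base-`p` digits -/
theorem sum_T_eq {p : ℕ} (hp : 2 ≤ p) {q : ℕ} (hq : q = 1 ∨ q = 2) (n' : ℕ)
    (f : ℕ → ℕ → ℕ → ℤ) :
    ∑ x ∈ T q (p * n'), f x.1 x.2.1 x.2.2 =
      ∑ x ∈ T 1 n', ∑ d ∈ D p q 1, f (p * x.1 + d.1) (p * x.2.1 + d.2.1) (p * x.2.2 + d.2.2) +
      ∑ x ∈ T 2 n', ∑ d ∈ D p q 2, f (p * x.1 + d.1) (p * x.2.1 + d.2.1) (p * x.2.2 + d.2.2) := by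
  have hq1 : 1 ≤ q := by omega
  have hq2 : q ≤ 2 := by omega
  have main : ∀ q' : ℕ, 1 ≤ q' →
      ∑ x ∈ (T q (p * n')).filter (fun x => x.1 % p + x.2.1 % p + x.2.2 % p + q = p * q'),
        f x.1 x.2.1 x.2.2 =
      ∑ x ∈ T q' n', ∑ d ∈ D p q q',
        f (p * x.1 + d.1) (p * x.2.1 + d.2.1) (p * x.2.2 + d.2.2) := by
    intro q' hq'
    rw [← Finset.sum_product']
    refine Finset.sum_nbij' (fun x => ((x.1 / p, x.2.1 / p, x.2.2 / p),
      (x.1 % p, x.2.1 % p, x.2.2 % p))) (fun y => (p * y.1.1 + y.2.1, p * y.1.2.1 + y.2.2.1,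
      p * y.1.2.2 + y.2.2.2)) ?_ ?_ ?_ ?_ ?_
    · rintro ⟨i, j, l⟩ hx
      rw [mem_filter, mem_T hq1] at hx
      rw [mem_product, mem_T hq', mem_D]
      simp only at hx ⊢
      refine ⟨?_, ⟨Nat.mod_lt _ (by omega), Nat.mod_lt _ (by omega), Nat.mod_lt _ (by omega)⟩, hx.2⟩
      have e1 := Nat.div_add_mod i p
      have e2 := Nat.div_add_mod j p
      have e3 := Nat.div_add_mod l p
      apply Nat.eq_of_mul_eq_mul_left (by omega : 0 < p)
      rw [mul_add, mul_add, mul_add]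
      omega
    · rintro ⟨⟨i, j, l⟩, ⟨a, b, c⟩⟩ hx
      rw [mem_product, mem_T hq', mem_D] at hx
      rw [mem_filter, mem_T hq1]
      simp only at hx ⊢
      obtain ⟨h1, ⟨ha, hb, hc⟩, h2⟩ := hx
      constructor
      · rw [← h1, mul_add, mul_add, mul_add]; omega
      · rw [Nat.mul_add_mod, Nat.mul_add_mod, Nat.mul_add_mod, Nat.mod_eq_of_lt ha,
          Nat.mod_eq_of_lt hb, Nat.mod_eq_of_lt hc]
        exact h2
    · rintro ⟨i, j, l⟩ _
      simp only [Nat.div_add_mod]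
    · rintro ⟨⟨i, j, l⟩, ⟨a, b, c⟩⟩ hx
      rw [mem_product, mem_T hq', mem_D] at hx
      simp only at hx ⊢
      obtain ⟨h1, ⟨ha, hb, hc⟩, h2⟩ := hx
      have hp0 : 0 < p := by omega
      rw [Nat.mul_add_mod, Nat.mul_add_mod, Nat.mul_add_mod, Nat.mod_eq_of_lt ha,
          Nat.mod_eq_of_lt hb, Nat.mod_eq_of_lt hc, Nat.mul_add_div hp0, Nat.mul_add_div hp0,
          Nat.mul_add_div hp0, Nat.div_eq_of_lt ha, Nat.div_eq_of_lt hb, Nat.div_eq_of_lt hc]
      simp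
    · rintro ⟨i, j, l⟩ _
      simp only [Nat.div_add_mod]
  rw [← main 1 le_rfl, ← main 2 (by norm_num), ← Finset.sum_filter_add_sum_filter_not (T q (p * n'))
    (fun x => x.1 % p + x.2.1 % p + x.2.2 % p + q = p * 1)]
  congr 1
  apply Finset.sum_congr _ (fun _ _ => rfl)
  ext ⟨i, j, l⟩
  rw [mem_filter, mem_filter, mem_T hq1]
  simp only
  constructor
  · rintro ⟨h1, h2⟩
    refine ⟨h1, ?_⟩
    have e1 := Nat.div_add_mod i p
    have e2 := Nat.div_add_mod j p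
    have e3 := Nat.div_add_mod l p
    have m1 := Nat.mod_lt i (by omega : 0 < p)
    have m2 := Nat.mod_lt j (by omega : 0 < p)
    have m3 := Nat.mod_lt l (by omega : 0 < p)
    have hdvd : p ∣ i % p + j % p + l % p + q := by
      have : i % p + j % p + l % p + q + p * (i / p + j / p + l / p) = p * n' := by
        rw [mul_add, mul_add]; omega
      rw [← Nat.dvd_add_left (Dvd.intro _ rfl : p ∣ p * (i / p + j / p + l / p)), this]
      exact Dvd.intro _ rfl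
    obtain ⟨t, ht⟩ := hdvd
    have ht3 : t < 3 := by
      by_contra hcon
      have : p * 3 ≤ p * t := Nat.mul_le_mul_left p (by omega)
      omega
    have ht1 : 0 < t := by
      rcases Nat.eq_zero_or_pos t with rfl | h
      · omega
      · exact h
    have : t = 1 ∨ t = 2 := by omega
    rcases this with rfl | rfl
    · exact absurd ht h2
    · exact ht
  · rintro ⟨h1, h2⟩
    exact ⟨h1, by omega⟩

/-! ## Weights -/

/-- `(i+j+q-1)! / (i! j!)` -/
def w (q i j : ℕ) : ℕ := (i + j + q - 1).factorial / (i.factorial * j.factorial)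

theorem w_spec {q : ℕ} (hq : 1 ≤ q) (i j : ℕ) :
    w q i j * (i.factorial * j.factorial) = (i + j + q - 1).factorial := by
  unfold w
  apply Nat.div_mul_cancel
  exact (Nat.factorial_mul_factorial_dvd_factorial_add i j).trans
    (Nat.factorial_dvd_factorial (by omega))

theorem w_one (i j : ℕ) : w 1 i j = (i + j).choose i := by
  unfold w
  rw [Nat.add_sub_cancel, Nat.choose_eq_factorial_div_factorial (Nat.le_add_right i j),
    Nat.add_sub_cancel_left]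

/-- the weight relation between consecutive levels -/
theorem w_rel {p : ℕ} (hp : 2 ≤ p) {q q' n' i' j' l' a b c : ℕ} (hq : 1 ≤ q) (hq' : 1 ≤ q')
    (h1 : i' + j' + l' + q' = n') (ha : a < p) (hb : b < p) (hc : c < p)
    (h2 : a + b + c + q = p * q') :
    (w q (p * i' + a) (p * j' + b) : ℤ) * (G p (p * i' + a) * G p (p * j' + b)) =
      (p : ℤ) ^ (q' - 1) * (w q' i' j' : ℤ) * G p ((p * i' + a) + (p * j' + b) + q - 1) ∧
    ((p * i' + a) + (p * j' + b) + q - 1) / p = i' + j' + q' - 1 := by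
  have hK : ((p * i' + a) + (p * j' + b) + q - 1) / p = i' + j' + q' - 1 := by
    have e : (p * i' + a) + (p * j' + b) + q - 1 = p * (i' + j' + q' - 1) + (p - 1 - c) := by
      have : p * (i' + j' + q' - 1) + p * 1 = p * (i' + j' + q') := by
        rw [← mul_add]; congr 1; omega
      have h3 : p * (i' + j' + q') = p * i' + p * j' + p * q' := by ring
      omega
    rw [e, Nat.mul_add_div (by omega), Nat.div_eq_of_lt (by omega), add_zero]
  refine ⟨?_, hK⟩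
  have s1 := w_spec hq (p * i' + a) (p * j' + b)
  have s2 := w_spec hq' i' j'
  have f1 := factorial_eq p (p * i' + a)
  have f2 := factorial_eq p (p * j' + b)
  have f3 := factorial_eq p ((p * i' + a) + (p * j' + b) + q - 1)
  rw [Nat.mul_add_div (by omega), Nat.div_eq_of_lt ha, add_zero] at f1
  rw [Nat.mul_add_div (by omega), Nat.div_eq_of_lt hb, add_zero] at f2
  rw [hK] at f3
  have s1' : (w q (p * i' + a) (p * j' + b) : ℤ) * (((p * i' + a).factorial : ℤ) *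
      ((p * j' + b).factorial : ℤ)) = (((p * i' + a) + (p * j' + b) + q - 1).factorial : ℤ) := by
    exact_mod_cast s1
  have s2' : (w q' i' j' : ℤ) * ((i'.factorial : ℤ) * (j'.factorial : ℤ)) =
      ((i' + j' + q' - 1).factorial : ℤ) := by exact_mod_cast s2
  rw [f1, f2, f3, ← s2'] at s1'
  have hpow : (p : ℤ) ^ (i' + j' + q' - 1) = (p : ℤ) ^ i' * (p : ℤ) ^ j' * (p : ℤ) ^ (q' - 1) := by
    rw [← pow_add, ← pow_add]; congr 1; omega
  rw [hpow] at s1'
  have hne : ((p : ℤ) ^ i' * (p : ℤ) ^ j' * (i'.factorial : ℤ) * (j'.factorial : ℤ)) ≠ 0 := by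
    have : (p : ℤ) ≠ 0 := by exact_mod_cast (by omega : p ≠ 0)
    have h5 : (i'.factorial : ℤ) ≠ 0 := by exact_mod_cast Nat.factorial_ne_zero i'
    have h6 : (j'.factorial : ℤ) ≠ 0 := by exact_mod_cast Nat.factorial_ne_zero j'
    positivity
  apply mul_left_cancel₀ hne
  linear_combination s1'

/-! ## The sums -/

/-- the weighted sum over triples -/
def K (r q n : ℕ) (ψ : ℕ → ℕ → ℕ → ℤ) : ℤ :=
  ∑ x ∈ T q n, (-1) ^ (r * (x.1 + x.2.1 + q - 1)) * (w q x.1 x.2.1 : ℤ) ^ r * ψ x.1 x.2.1 x.2.2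

/-- twist of a function by a power of the symmetric product -/
def tw (p r q E : ℕ) (η : ℤ) (ψ : ℕ → ℕ → ℕ → ℤ) : ℕ → ℕ → ℕ → ℤ := fun i j l =>
  ψ i j l * P3 p i j l ^ E * ((-η) ^ ((i + j + q - 1) - (i + j + q - 1) / p)) ^ r

/-- sum over the digits -/
def push (p q q' : ℕ) (φ : ℕ → ℕ → ℕ → ℤ) : ℕ → ℕ → ℕ → ℤ := fun i j l =>
  ∑ d ∈ D p q q', φ (p * i + d.1) (p * j + d.2.1) (p * l + d.2.2)

theorem pow_totient_modEq {p : ℕ} (hp : p.Prime) (M : ℕ) {x : ℤ} (hx : ¬ (p : ℤ) ∣ x) :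
    x ^ (Nat.totient (p ^ M)) ≡ 1 [ZMOD ((p ^ M : ℕ) : ℤ)] := by
  have hcop : IsCoprime x ((p ^ M : ℕ) : ℤ) := by
    push_cast
    apply IsCoprime.pow_right
    exact ((Nat.prime_iff_prime_int.mp hp).coprime_iff_not_dvd.mpr hx).symm
  obtain ⟨u, v, huv⟩ := hcop
  rw [← ZMod.intCast_eq_intCast_iff]
  push_cast
  have h1 : (u : ZMod (p ^ M)) * (x : ZMod (p ^ M)) = 1 := by
    have := congrArg (Int.cast : ℤ → ZMod (p ^ M)) huv
    push_cast at this
    rw [← Nat.cast_pow, ZMod.natCast_self, mul_zero, add_zero] at this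
    exact this
  have hunit : IsUnit (x : ZMod (p ^ M)) := IsUnit.of_mul_eq_one_right _ h1
  obtain ⟨y, hy⟩ := hunit
  rw [← hy, ← Units.val_pow_eq_pow_val, ZMod.pow_totient, Units.val_one]

theorem exists_E {p : ℕ} (hp : p.Prime) (M r : ℕ) : ∃ E : ℕ, ∀ x : ℤ, ¬ (p : ℤ) ∣ x →
    x ^ r * x ^ E ≡ 1 [ZMOD ((p ^ M : ℕ) : ℤ)] := by
  refine ⟨r * (Nat.totient (p ^ M) - 1), fun x hx => ?_⟩
  have hpos : 0 < Nat.totient (p ^ M) := Nat.totient_pos.mpr (pow_pos hp.pos M)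
  have e : r + r * (Nat.totient (p ^ M) - 1) = Nat.totient (p ^ M) * r := by
    obtain ⟨t, ht⟩ : ∃ t, Nat.totient (p ^ M) = t + 1 := ⟨_, (Nat.succ_pred_eq_of_pos hpos).symm⟩
    rw [ht, Nat.add_sub_cancel]; ring
  rw [← pow_add, e, pow_mul]
  have := (pow_totient_modEq hp M hx).pow r
  rwa [one_pow] at this

theorem term_step {p : ℕ} (hp : 2 ≤ p) {r q q' n' i' j' l' a b c : ℕ} (hq : 1 ≤ q) (hq' : 1 ≤ q')
    (h1 : i' + j' + l' + q' = n') (ha : a < p) (hb : b < p) (hc : c < p)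
    (h2 : a + b + c + q = p * q') (m η : ℤ)
    (hη : ∀ k l : ℕ, k + l = p * n' → ¬ p ∣ k → (k : ℤ) ≡ η * l [ZMOD m]) :
    (-1) ^ (r * ((p * i' + a) + (p * j' + b) + q - 1)) * (w q (p * i' + a) (p * j' + b) : ℤ) ^ r *
      P3 p (p * i' + a) (p * j' + b) (p * l' + c) ^ r ≡
    G p (p * n' - 1) ^ r * (((p : ℤ) ^ (q' - 1)) ^ r * ((-1) ^ (r * (i' + j' + q' - 1)) *
      (w q' i' j' : ℤ) ^ r)) *
      ((-η) ^ (((p * i' + a) + (p * j' + b) + q - 1) -
        ((p * i' + a) + (p * j' + b) + q - 1) / p)) ^ r [ZMOD m] := by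
  obtain ⟨hw, hK⟩ := w_rel hp hq hq' h1 ha hb hc h2
  set Kk := (p * i' + a) + (p * j' + b) + q - 1 with hKk
  have hsum : (p * l' + c) + Kk + 1 = p * n' := by
    rw [← h1]
    have : p * (i' + j' + l' + q') = p * i' + p * j' + p * l' + p * q' := by ring
    omega
  have hrefl := G_reflect (Dvd.intro _ rfl : p ∣ p * n') m η hη Kk (p * l' + c) hsum
  have h3 : (w q (p * i' + a) (p * j' + b) : ℤ) * P3 p (p * i' + a) (p * j' + b) (p * l' + c) ≡
      (p : ℤ) ^ (q' - 1) * (w q' i' j' : ℤ) * (η ^ (Kk - Kk / p) * G p (p * n' - 1)) [ZMOD m] := by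
    calc (w q (p * i' + a) (p * j' + b) : ℤ) * P3 p (p * i' + a) (p * j' + b) (p * l' + c)
        = ((w q (p * i' + a) (p * j' + b) : ℤ) * (G p (p * i' + a) * G p (p * j' + b))) *
          G p (p * l' + c) := by unfold P3; ring
      _ = (p : ℤ) ^ (q' - 1) * (w q' i' j' : ℤ) * (G p Kk * G p (p * l' + c)) := by rw [hw]; ring
      _ ≡ _ [ZMOD m] := (Int.ModEq.refl _).mul hrefl
  have h4 := (h3.pow r).mul_left ((-1) ^ (r * Kk))
  have hsign : (-1 : ℤ) ^ (r * Kk) * (η ^ (Kk - Kk / p)) ^ r =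
      (-1) ^ (r * (i' + j' + q' - 1)) * ((-η) ^ (Kk - Kk / p)) ^ r := by
    have hη2 : η ^ (Kk - Kk / p) = (-1) ^ (Kk - Kk / p) * (-η) ^ (Kk - Kk / p) := by
      rw [← mul_pow]; ring
    rw [hη2, mul_pow, ← mul_assoc, ← hK]
    congr 1
    rw [← pow_mul, ← pow_add]
    have hle : Kk / p ≤ Kk := Nat.div_le_self _ _
    have : r * Kk + (Kk - Kk / p) * r = r * (Kk / p) + 2 * (r * (Kk - Kk / p)) := by
      obtain ⟨t, ht⟩ := Nat.exists_eq_add_of_le hle
      have : Kk - Kk / p = t := by omega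
      rw [this]
      calc r * Kk + t * r = r * (Kk / p + t) + t * r := by rw [← ht]
        _ = _ := by ring
    rw [this, pow_add, pow_mul (-1 : ℤ) 2]
    norm_num
  calc (-1) ^ (r * Kk) * (w q (p * i' + a) (p * j' + b) : ℤ) ^ r *
      P3 p (p * i' + a) (p * j' + b) (p * l' + c) ^ r
      = (-1) ^ (r * Kk) * ((w q (p * i' + a) (p * j' + b) : ℤ) *
        P3 p (p * i' + a) (p * j' + b) (p * l' + c)) ^ r := by rw [mul_pow]; ring
    _ ≡ _ [ZMOD m] := h4
    _ = G p (p * n' - 1) ^ r * (((p : ℤ) ^ (q' - 1)) ^ r * (w q' i' j' : ℤ) ^ r) *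
        ((-1 : ℤ) ^ (r * Kk) * (η ^ (Kk - Kk / p)) ^ r) := by
          rw [mul_pow, mul_pow, mul_pow]; ring
    _ = _ := by rw [hsign]; ring

theorem K_step {p : ℕ} (hp : p.Prime) {r q n' M E : ℕ} (hq : q = 1 ∨ q = 2)
    (hE : ∀ x : ℤ, ¬ (p : ℤ) ∣ x → x ^ r * x ^ E ≡ 1 [ZMOD ((p ^ M : ℕ) : ℤ)]) (η : ℤ)
    (hη : ∀ k l : ℕ, k + l = p * n' → ¬ p ∣ k → (k : ℤ) ≡ η * l [ZMOD ((p ^ M : ℕ) : ℤ)])
    (ψ : ℕ → ℕ → ℕ → ℤ) :
    K r q (p * n') ψ ≡ G p (p * n' - 1) ^ r * (K r 1 n' (push p q 1 (tw p r q E η ψ)) +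
      (p : ℤ) ^ r * K r 2 n' (push p q 2 (tw p r q E η ψ))) [ZMOD ((p ^ M : ℕ) : ℤ)] := by
  have hp2 := hp.two_le
  have hq1 : 1 ≤ q := by omega
  have key : ∀ q' : ℕ, 1 ≤ q' → ∀ x ∈ T q' n', ∀ d ∈ D p q q',
      (-1) ^ (r * ((p * x.1 + d.1) + (p * x.2.1 + d.2.1) + q - 1)) *
        (w q (p * x.1 + d.1) (p * x.2.1 + d.2.1) : ℤ) ^ r *
        ψ (p * x.1 + d.1) (p * x.2.1 + d.2.1) (p * x.2.2 + d.2.2) ≡
      G p (p * n' - 1) ^ r * (((p : ℤ) ^ (q' - 1)) ^ r * ((-1) ^ (r * (x.1 + x.2.1 + q' - 1)) *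
        (w q' x.1 x.2.1 : ℤ) ^ r * tw p r q E η ψ (p * x.1 + d.1) (p * x.2.1 + d.2.1)
          (p * x.2.2 + d.2.2))) [ZMOD ((p ^ M : ℕ) : ℤ)] := by
    rintro q' hq' ⟨i', j', l'⟩ hx ⟨a, b, c⟩ hd
    rw [mem_T hq'] at hx
    rw [mem_D] at hd
    simp only at hx hd ⊢
    obtain ⟨⟨ha, hb, hc⟩, h2⟩ := hd
    have ht := term_step (r := r) hp2 hq1 hq' hx ha hb hc h2 _ η hη
    have hu := hE _ (P3_not_dvd hp (p * i' + a) (p * j' + b) (p * l' + c))
    set A := (-1 : ℤ) ^ (r * ((p * i' + a) + (p * j' + b) + q - 1)) *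
        (w q (p * i' + a) (p * j' + b) : ℤ) ^ r with hA
    set Pp := P3 p (p * i' + a) (p * j' + b) (p * l' + c) with hPp
    set Ψ := ψ (p * i' + a) (p * j' + b) (p * l' + c) with hΨ
    calc A * Ψ = A * Ψ * 1 := by ring
      _ ≡ A * Ψ * (Pp ^ r * Pp ^ E) [ZMOD ((p ^ M : ℕ) : ℤ)] := (Int.ModEq.refl _).mul hu.symm
      _ = (A * Pp ^ r) * (Ψ * Pp ^ E) := by ring
      _ ≡ _ [ZMOD ((p ^ M : ℕ) : ℤ)] := ht.mul (Int.ModEq.refl _)
      _ = _ := by
        unfold tw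
        rw [← hΨ, ← hPp]
        ring
  unfold K
  rw [sum_T_eq hp2 hq n' (fun i j l => (-1) ^ (r * (i + j + q - 1)) * (w q i j : ℤ) ^ r * ψ i j l),
    mul_add]
  apply Int.ModEq.add
  · calc _ ≡ ∑ x ∈ T 1 n', ∑ d ∈ D p q 1,
        G p (p * n' - 1) ^ r * (((p : ℤ) ^ (1 - 1)) ^ r * ((-1) ^ (r * (x.1 + x.2.1 + 1 - 1)) *
        (w 1 x.1 x.2.1 : ℤ) ^ r * tw p r q E η ψ (p * x.1 + d.1) (p * x.2.1 + d.2.1)
          (p * x.2.2 + d.2.2))) [ZMOD ((p ^ M : ℕ) : ℤ)] := by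
          apply Int.ModEq.sum
          intro x hx
          apply Int.ModEq.sum
          intro d hd
          exact key 1 le_rfl x hx d hd
      _ = _ := by
          simp only [push, Finset.mul_sum]
          apply Finset.sum_congr rfl
          intro x _
          apply Finset.sum_congr rfl
          intro d _
          simp
  · calc _ ≡ ∑ x ∈ T 2 n', ∑ d ∈ D p q 2,
        G p (p * n' - 1) ^ r * (((p : ℤ) ^ (2 - 1)) ^ r * ((-1) ^ (r * (x.1 + x.2.1 + 2 - 1)) *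
        (w 2 x.1 x.2.1 : ℤ) ^ r * tw p r q E η ψ (p * x.1 + d.1) (p * x.2.1 + d.2.1)
          (p * x.2.2 + d.2.2))) [ZMOD ((p ^ M : ℕ) : ℤ)] := by
          apply Int.ModEq.sum
          intro x hx
          apply Int.ModEq.sum
          intro d hd
          exact key 2 (by norm_num) x hx d hd
      _ = _ := by
          simp only [push, Finset.mul_sum]
          apply Finset.sum_congr rfl
          intro x _
          apply Finset.sum_congr rfl
          intro d _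
          simp

/-! ## Cyclic and Lipschitz conditions -/

/-- the cyclic sums of `ψ` are divisible by `m` -/
def Cyc (q n : ℕ) (m : ℤ) (ψ : ℕ → ℕ → ℕ → ℤ) : Prop :=
  ∀ i j l : ℕ, i + j + l + q = n → m ∣ ψ i j l + ψ j l i + ψ l i j

/-- Lipschitz condition on the plane `i + j + l + q = n` -/
def Lip (p q n a : ℕ) (ψ : ℕ → ℕ → ℕ → ℤ) : Prop :=
  ∀ s ≤ a, ∀ i j l i' j' l' : ℕ, i + j + l + q = n → i' + j' + l' + q = n →
    i ≡ i' [MOD p ^ s] → j ≡ j' [MOD p ^ s] → l ≡ l' [MOD p ^ s] →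
    ψ i j l ≡ ψ i' j' l' [ZMOD (p : ℤ) ^ s]

theorem sum_D_rot (p q q' : ℕ) (f : ℕ → ℕ → ℕ → ℤ) :
    ∑ d ∈ D p q q', f d.2.1 d.2.2 d.1 = ∑ d ∈ D p q q', f d.1 d.2.1 d.2.2 := by
  refine Finset.sum_nbij' (fun x => (x.2.1, x.2.2, x.1)) (fun x => (x.2.2, x.1, x.2.1))
    ?_ ?_ ?_ ?_ ?_
  · rintro ⟨a, b, c⟩ h
    rw [mem_D] at h ⊢
    simp only at h ⊢
    omega
  · rintro ⟨a, b, c⟩ h
    rw [mem_D] at h ⊢
    simp only at h ⊢
    omega
  · rintro ⟨a, b, c⟩ _; rfl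
  · rintro ⟨a, b, c⟩ _; rfl
  · rintro ⟨a, b, c⟩ _; rfl

theorem sum_D_rot' (p q q' : ℕ) (f : ℕ → ℕ → ℕ → ℤ) :
    ∑ d ∈ D p q q', f d.2.2 d.1 d.2.1 = ∑ d ∈ D p q q', f d.1 d.2.1 d.2.2 := by
  rw [← sum_D_rot p q q' f]
  rw [← sum_D_rot p q q' (fun a b c => f b c a)]

theorem Cyc.push {p q q' n' : ℕ} {m : ℤ} {φ : ℕ → ℕ → ℕ → ℤ} (h : Cyc q (p * n') m φ) :
    Cyc q' n' m (push p q q' φ) := by
  intro i j l hs
  unfold WeightedPowerSums.push
  rw [← sum_D_rot p q q' (fun a b c => φ (p * j + a) (p * l + b) (p * i + c)),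
    ← sum_D_rot' p q q' (fun a b c => φ (p * l + a) (p * i + b) (p * j + c)),
    ← Finset.sum_add_distrib, ← Finset.sum_add_distrib]
  apply Finset.dvd_sum
  rintro ⟨a, b, c⟩ hd
  rw [mem_D] at hd
  simp only at hd ⊢
  apply h
  have : p * n' = p * i + p * j + p * l + p * q' := by rw [← hs]; ring
  omega

theorem Lip.push {p q q' n' a : ℕ} {φ : ℕ → ℕ → ℕ → ℤ} (h : Lip p q (p * n') (a + 1) φ) :
    ∀ s ≤ a, ∀ i j l i' j' l' : ℕ, i + j + l + q' = n' → i' + j' + l' + q' = n' →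
    i ≡ i' [MOD p ^ s] → j ≡ j' [MOD p ^ s] → l ≡ l' [MOD p ^ s] →
    push p q q' φ i j l ≡ push p q q' φ i' j' l' [ZMOD (p : ℤ) ^ (s + 1)] := by
  intro s hs i j l i' j' l' h1 h2 hi hj hl
  unfold WeightedPowerSums.push
  apply Int.ModEq.sum
  rintro ⟨a, b, c⟩ hd
  rw [mem_D] at hd
  simp only at hd ⊢
  have e1 : p * n' = p * i + p * j + p * l + p * q' := by rw [← h1]; ring
  have e2 : p * n' = p * i' + p * j' + p * l' + p * q' := by rw [← h2]; ring
  apply h (s + 1) (by omega)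
  · omega
  · omega
  · rw [pow_succ']; exact (Nat.ModEq.mul_left' p hi).add_right a
  · rw [pow_succ']; exact (Nat.ModEq.mul_left' p hj).add_right b
  · rw [pow_succ']; exact (Nat.ModEq.mul_left' p hl).add_right c

theorem push_dvd {p : ℕ} (hp : p.Prime) {q q' n' a : ℕ} (hq : q = 1 ∨ q = 2)
    (hq' : q' = 1 ∨ q' = 2) {m : ℤ} (hm : (p : ℤ) ∣ m) {φ : ℕ → ℕ → ℕ → ℤ}
    (hC : Cyc q (p * n') m φ) (hL : Lip p q (p * n') (a + 1) φ) (i j l : ℕ)
    (hs : i + j + l + q' = n') : (p : ℤ) ∣ push p q q' φ i j l := by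
  have key : ∀ a b c : ℕ, a + b + c + q = p * q' →
      (p : ℤ) ∣ φ (p * i + a) (p * j + b) (p * l + c) + φ (p * i + b) (p * j + c) (p * l + a) +
        φ (p * i + c) (p * j + a) (p * l + b) := by
    intro a b c habc
    have e1 : p * n' = p * i + p * j + p * l + p * q' := by rw [← hs]; ring
    have h1 := hm.trans (hC (p * i + a) (p * j + b) (p * l + c) (by omega))
    have h2 : φ (p * j + b) (p * l + c) (p * i + a) ≡ φ (p * i + b) (p * j + c) (p * l + a)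
        [ZMOD (p : ℤ)] := by
      have := hL 1 (by omega) (p * j + b) (p * l + c) (p * i + a) (p * i + b) (p * j + c)
        (p * l + a) (by omega) (by omega) (by simp [Nat.ModEq]) (by simp [Nat.ModEq])
        (by simp [Nat.ModEq])
      simpa using this
    have h3 : φ (p * l + c) (p * i + a) (p * j + b) ≡ φ (p * i + c) (p * j + a) (p * l + b)
        [ZMOD (p : ℤ)] := by
      have := hL 1 (by omega) (p * l + c) (p * i + a) (p * j + b) (p * i + c) (p * j + a)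
        (p * l + b) (by omega) (by omega) (by simp [Nat.ModEq]) (by simp [Nat.ModEq])
        (by simp [Nat.ModEq])
      simpa using this
    have h4 := ((Int.ModEq.refl (φ (p * i + a) (p * j + b) (p * l + c))).add h2).add h3
    exact (Int.ModEq.dvd_iff h4).mp h1
  set F : ℕ → ℕ → ℕ → ℤ := fun a b c => φ (p * i + a) (p * j + b) (p * l + c) with hF
  by_cases h3 : p = 3
  · subst h3
    rcases hq with rfl | rfl <;> rcases hq' with rfl | rfl
    · have hD : D 3 1 1 = {(0,0,2),(0,2,0),(2,0,0),(1,1,0),(1,0,1),(0,1,1)} := by decide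
      unfold push
      rw [hD]
      have k1 := key 0 0 2 (by norm_num)
      have k2 := key 1 1 0 (by norm_num)
      rw [Finset.sum_insert (by decide), Finset.sum_insert (by decide),
        Finset.sum_insert (by decide), Finset.sum_insert (by decide),
        Finset.sum_insert (by decide), Finset.sum_singleton]
      simp only
      have := Int.dvd_add k1 k2
      convert this using 1
      ring
    · have hD : D 3 1 2 = {(1,2,2),(2,2,1),(2,1,2)} := by decide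
      unfold push
      rw [hD]
      have k1 := key 1 2 2 (by norm_num)
      rw [Finset.sum_insert (by decide), Finset.sum_insert (by decide), Finset.sum_singleton]
      simp only
      convert k1 using 1
      ring
    · have hD : D 3 2 1 = {(1,0,0),(0,0,1),(0,1,0)} := by decide
      unfold push
      rw [hD]
      have k1 := key 1 0 0 (by norm_num)
      rw [Finset.sum_insert (by decide), Finset.sum_insert (by decide), Finset.sum_singleton]
      simp only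
      convert k1 using 1
      ring
    · have hD : D 3 2 2 = {(0,2,2),(2,2,0),(2,0,2),(2,1,1),(1,1,2),(1,2,1)} := by decide
      unfold push
      rw [hD]
      have k1 := key 0 2 2 (by norm_num)
      have k2 := key 2 1 1 (by norm_num)
      rw [Finset.sum_insert (by decide), Finset.sum_insert (by decide),
        Finset.sum_insert (by decide), Finset.sum_insert (by decide),
        Finset.sum_insert (by decide), Finset.sum_singleton]
      simp only
      have := Int.dvd_add k1 k2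
      convert this using 1
      ring
  · have h5 : (p : ℤ) ∣ 3 * push p q q' φ i j l := by
      have e : 3 * push p q q' φ i j l = ∑ d ∈ D p q q', (F d.1 d.2.1 d.2.2 +
          F d.2.1 d.2.2 d.1 + F d.2.2 d.1 d.2.1) := by
        rw [Finset.sum_add_distrib, Finset.sum_add_distrib, sum_D_rot, sum_D_rot']
        unfold push
        ring
      rw [e]
      apply Finset.dvd_sum
      rintro ⟨a, b, c⟩ hd
      rw [mem_D] at hd
      exact key a b c hd.2
    rcases (Nat.prime_iff_prime_int.mp hp).dvd_or_dvd h5 with h6 | h6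
    · exfalso
      have h7 : p ∣ 3 := by exact_mod_cast h6
      exact h3 ((Nat.prime_dvd_prime_iff_eq hp Nat.prime_three).mp h7)
    · exact h6

theorem Cyc.twist {p r q n E : ℕ} {m : ℤ} {ψ : ℕ → ℕ → ℕ → ℤ} (h : Cyc q n m ψ) :
    Cyc q n m (tw p r q E (-1) ψ) := by
  intro i j l hs
  have := h i j l hs
  simp only [tw, neg_neg, one_pow, mul_one]
  have e1 : P3 p j l i = P3 p i j l := by unfold P3; ring
  have e2 : P3 p l i j = P3 p i j l := by unfold P3; ring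
  rw [e1, e2, ← add_mul, ← add_mul]
  exact this.mul_right _

theorem Lip.twist {p r q n a E : ℕ} {ψ : ℕ → ℕ → ℕ → ℤ} (h : Lip p q n a ψ) :
    Lip p q n a (tw p r q E (-1) ψ) := by
  intro s hs i j l i' j' l' h1 h2 hi hj hl
  simp only [tw, neg_neg, one_pow, mul_one]
  exact (h s hs i j l i' j' l' h1 h2 hi hj hl).mul
    ((P3_lip s (by omega) hi hj hl).pow E)

theorem K_congr {r q n : ℕ} (hq : 1 ≤ q) {m : ℤ} {φ ψ : ℕ → ℕ → ℕ → ℤ}
    (h : ∀ i j l : ℕ, i + j + l + q = n → φ i j l ≡ ψ i j l [ZMOD m]) :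
    K r q n φ ≡ K r q n ψ [ZMOD m] := by
  unfold K
  apply Int.ModEq.sum
  rintro ⟨i, j, l⟩ hx
  rw [mem_T hq] at hx
  exact (Int.ModEq.refl _).mul (h i j l hx)

theorem K_smul (r q n : ℕ) (c : ℤ) (ψ : ℕ → ℕ → ℕ → ℤ) :
    K r q n (fun i j l => c * ψ i j l) = c * K r q n ψ := by
  unfold K
  rw [Finset.mul_sum]
  apply Finset.sum_congr rfl
  intro x _
  ring

theorem K_eq_of_eq {r q n : ℕ} (hq : 1 ≤ q) {φ ψ : ℕ → ℕ → ℕ → ℤ}
    (h : ∀ i j l : ℕ, i + j + l + q = n → φ i j l = ψ i j l) : K r q n φ = K r q n ψ := by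
  unfold K
  apply Finset.sum_congr rfl
  rintro ⟨i, j, l⟩ hx
  rw [mem_T hq] at hx
  simp only at hx ⊢
  rw [h i j l hx]

/-- main divisibility: `p ^ a ∣ K` when `p ^ a ∣ n`. -/
theorem main_dvd {p : ℕ} (hp : p.Prime) (r : ℕ) (a : ℕ) : ∀ (q n : ℕ) (ψ : ℕ → ℕ → ℕ → ℤ),
    (q = 1 ∨ q = 2) → p ^ a ∣ n → Cyc q n ((p : ℤ) ^ a) ψ → Lip p q n a ψ →
    (p : ℤ) ^ a ∣ K r q n ψ := by
  induction a with
  | zero => intros; simp
  | succ a ih =>
    intro q n ψ hq hn hC hL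
    obtain ⟨n', rfl⟩ : p ∣ n := (dvd_pow_self p (Nat.succ_ne_zero a)).trans hn
    have hn' : p ^ a ∣ n' := by
      rw [pow_succ'] at hn
      exact Nat.dvd_of_mul_dvd_mul_left hp.pos hn
    obtain ⟨E, hE⟩ := exists_E hp (a + 1) r
    have hη : ∀ k l : ℕ, k + l = p * n' → ¬ p ∣ k →
        (k : ℤ) ≡ (-1) * l [ZMOD ((p ^ (a + 1) : ℕ) : ℤ)] := by
      intro k l hkl _
      rw [Int.modEq_iff_dvd]
      have : ((-1) * (l : ℤ) - k) = -((p * n' : ℕ) : ℤ) := by rw [← hkl]; push_cast; ring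
      rw [this, dvd_neg]
      exact_mod_cast hn
    have hstep := K_step hp hq hE (-1) hη ψ
    have hC1 := hC.twist (p := p) (r := r) (E := E)
    have hL1 := hL.twist (r := r) (E := E)
    have key : ∀ q' : ℕ, (q' = 1 ∨ q' = 2) →
        (p : ℤ) ^ (a + 1) ∣ K r q' n' (push p q q' (tw p r q E (-1) ψ)) := by
      intro q' hq'
      have hq'1 : 1 ≤ q' := by omega
      have hdiv : ∀ i j l : ℕ, i + j + l + q' = n' →
          push p q q' (tw p r q E (-1) ψ) i j l =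
            (p : ℤ) * (push p q q' (tw p r q E (-1) ψ) i j l / (p : ℤ)) := by
        intro i j l hs
        have := push_dvd hp hq hq' (dvd_pow_self (p : ℤ) (Nat.succ_ne_zero a)) hC1 hL1 i j l hs
        rw [Int.mul_ediv_cancel' this]
      rw [K_eq_of_eq hq'1 hdiv, K_smul, pow_succ']
      apply mul_dvd_mul_left
      have hp0 : (p : ℤ) ≠ 0 := by exact_mod_cast hp.ne_zero
      apply ih q' n' _ hq' hn'
      · intro i j l hs
        have h1 := hC1.push (q' := q') i j l hs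
        rw [hdiv i j l hs, hdiv j l i (by omega), hdiv l i j (by omega), ← mul_add, ← mul_add,
          pow_succ'] at h1
        exact (mul_dvd_mul_iff_left hp0).mp h1
      · intro s hs i j l i' j' l' h1 h2 hi hj hl
        have h3 := hL1.push (q' := q') s hs i j l i' j' l' h1 h2 hi hj hl
        rw [hdiv i j l h1, hdiv i' j' l' h2, Int.modEq_iff_dvd, ← mul_sub, pow_succ'] at h3
        rw [Int.modEq_iff_dvd]
        exact (mul_dvd_mul_iff_left hp0).mp h3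
    have h1 := key 1 (Or.inl rfl)
    have h2 := key 2 (Or.inr rfl)
    have h3 : (p : ℤ) ^ (a + 1) ∣ G p (p * n' - 1) ^ r *
        (K r 1 n' (push p q 1 (tw p r q E (-1) ψ)) +
        (p : ℤ) ^ r * K r 2 n' (push p q 2 (tw p r q E (-1) ψ))) :=
      Dvd.dvd.mul_left (dvd_add h1 (h2.mul_left _)) _
    push_cast at hstep
    exact (Int.ModEq.dvd_iff hstep).mpr h3

/-! ## The prime two -/

/-- symmetry in the first two variables -/
def Sym (ψ : ℕ → ℕ → ℕ → ℤ) : Prop := ∀ i j l : ℕ, ψ i j l = ψ j i l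

theorem sum_D_swap (p q q' : ℕ) (f : ℕ → ℕ → ℕ → ℤ) :
    ∑ d ∈ D p q q', f d.2.1 d.1 d.2.2 = ∑ d ∈ D p q q', f d.1 d.2.1 d.2.2 := by
  refine Finset.sum_nbij' (fun x => (x.2.1, x.1, x.2.2)) (fun x => (x.2.1, x.1, x.2.2))
    ?_ ?_ ?_ ?_ ?_
  · rintro ⟨a, b, c⟩ h
    rw [mem_D] at h ⊢
    simp only at h ⊢
    omega
  · rintro ⟨a, b, c⟩ h
    rw [mem_D] at h ⊢
    simp only at h ⊢
    omega
  · rintro ⟨a, b, c⟩ _; rfl
  · rintro ⟨a, b, c⟩ _; rfl
  · rintro ⟨a, b, c⟩ _; rfl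

theorem Sym.push {p q q' : ℕ} {φ : ℕ → ℕ → ℕ → ℤ} (h : Sym φ) : Sym (push p q q' φ) := by
  intro i j l
  unfold WeightedPowerSums.push
  rw [← sum_D_swap p q q' (fun a b c => φ (p * j + a) (p * i + b) (p * l + c))]
  apply Finset.sum_congr rfl
  rintro ⟨a, b, c⟩ _
  exact h _ _ _

theorem Sym.twist {p r q E : ℕ} {ψ : ℕ → ℕ → ℕ → ℤ} (h : Sym ψ) :
    Sym (tw p r q E (-1) ψ) := by
  intro i j l
  simp only [tw, neg_neg, one_pow, mul_one]
  rw [h i j l]
  have : P3 p j i l = P3 p i j l := by unfold P3; ring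
  rw [this]

/-- base case: symmetric summation -/
theorem K_base {r n : ℕ} (hr : 1 ≤ r) (m : ℤ) {φ : ℕ → ℕ → ℕ → ℤ} (hS : Sym φ)
    (hm : ∀ i j l : ℕ, i + j + l + 1 = n → m ∣ φ i j l)
    (h0 : ∀ l : ℕ, l + 1 = n → 2 * m ∣ φ 0 0 l) : 2 * m ∣ K r 1 n φ := by
  unfold K
  rw [← Finset.sum_filter_add_sum_filter_not (T 1 n) (fun x => x.1 = x.2.1)]
  apply dvd_add
  · apply Finset.dvd_sum
    rintro ⟨i, j, l⟩ hx
    rw [mem_filter, mem_T le_rfl] at hx
    simp only at hx ⊢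
    obtain ⟨h1, rfl⟩ := hx
    rcases Nat.eq_zero_or_pos i with rfl | hi
    · exact (h0 l (by omega)).mul_left _
    · rw [w_one]
      have h2 : (2 : ℤ) ∣ ((i + i).choose i : ℤ) := by
        have := Nat.two_dvd_centralBinom_of_one_le hi
        rw [Nat.centralBinom_eq_two_mul_choose, two_mul] at this
        exact_mod_cast this
      have h3 : (2 : ℤ) ∣ ((i + i).choose i : ℤ) ^ r := dvd_pow h2 (by omega)
      exact mul_dvd_mul (h3.mul_left _) (hm i i l h1)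
  · rw [← Finset.sum_filter_add_sum_filter_not ((T 1 n).filter (fun x => ¬ x.1 = x.2.1))
      (fun x => x.1 < x.2.1)]
    have hsw : ∑ x ∈ ((T 1 n).filter (fun x => ¬ x.1 = x.2.1)).filter (fun x => ¬ x.1 < x.2.1),
        (-1) ^ (r * (x.1 + x.2.1 + 1 - 1)) * (w 1 x.1 x.2.1 : ℤ) ^ r * φ x.1 x.2.1 x.2.2 =
        ∑ x ∈ ((T 1 n).filter (fun x => ¬ x.1 = x.2.1)).filter (fun x => x.1 < x.2.1),
        (-1) ^ (r * (x.1 + x.2.1 + 1 - 1)) * (w 1 x.1 x.2.1 : ℤ) ^ r * φ x.1 x.2.1 x.2.2 := by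
      refine Finset.sum_nbij' (fun x => (x.2.1, x.1, x.2.2)) (fun x => (x.2.1, x.1, x.2.2))
        ?_ ?_ ?_ ?_ ?_
      · rintro ⟨a, b, c⟩ h
        rw [mem_filter, mem_filter, mem_T le_rfl] at h ⊢
        simp only at h ⊢
        omega
      · rintro ⟨a, b, c⟩ h
        rw [mem_filter, mem_filter, mem_T le_rfl] at h ⊢
        simp only at h ⊢
        omega
      · rintro ⟨a, b, c⟩ _; rfl
      · rintro ⟨a, b, c⟩ _; rfl
      · rintro ⟨a, b, c⟩ _
        simp only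
        rw [w_one, w_one, hS a b c, Nat.add_comm b a, Nat.choose_symm_add]
    rw [hsw, ← two_mul]
    apply mul_dvd_mul_left
    apply Finset.dvd_sum
    rintro ⟨i, j, l⟩ hx
    rw [mem_filter, mem_filter, mem_T le_rfl] at hx
    exact (hm i j l hx.1.1).mul_left _

/-- properties of the quotient of a pushed function by `p` -/
theorem quo_spec {p : ℕ} (hp : p.Prime) {q q' n' a b : ℕ} (hq : q = 1 ∨ q = 2)
    (hq' : q' = 1 ∨ q' = 2) (hb : 1 ≤ b) {φ : ℕ → ℕ → ℕ → ℤ}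
    (hC : Cyc q (p * n') ((p : ℤ) ^ b) φ) (hL : Lip p q (p * n') (a + 1) φ) :
    (∀ i j l : ℕ, i + j + l + q' = n' → push p q q' φ i j l =
      (p : ℤ) * (push p q q' φ i j l / (p : ℤ))) ∧
    Cyc q' n' ((p : ℤ) ^ (b - 1)) (fun i j l => push p q q' φ i j l / (p : ℤ)) ∧
    Lip p q' n' a (fun i j l => push p q q' φ i j l / (p : ℤ)) := by
  have hp0 : (p : ℤ) ≠ 0 := by exact_mod_cast hp.ne_zero
  have hdiv : ∀ i j l : ℕ, i + j + l + q' = n' → push p q q' φ i j l =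
      (p : ℤ) * (push p q q' φ i j l / (p : ℤ)) := by
    intro i j l hs
    have := push_dvd hp hq hq' (dvd_pow_self (p : ℤ) (by omega : b ≠ 0)) hC hL i j l hs
    rw [Int.mul_ediv_cancel' this]
  refine ⟨hdiv, ?_, ?_⟩
  · intro i j l hs
    have h1 := hC.push (q' := q') i j l hs
    obtain ⟨c, rfl⟩ : ∃ c, b = c + 1 := ⟨b - 1, by omega⟩
    rw [hdiv i j l hs, hdiv j l i (by omega), hdiv l i j (by omega), ← mul_add, ← mul_add,
      pow_succ'] at h1
    exact (mul_dvd_mul_iff_left hp0).mp h1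
  · intro s hs i j l i' j' l' h1 h2 hi hj hl
    have h3 := hL.push (q' := q') s hs i j l i' j' l' h1 h2 hi hj hl
    rw [hdiv i j l h1, hdiv i' j' l' h2, Int.modEq_iff_dvd, ← mul_sub, pow_succ'] at h3
    rw [Int.modEq_iff_dvd]
    exact (mul_dvd_mul_iff_left hp0).mp h3

theorem Cyc.mono {q n : ℕ} {m m' : ℤ} (hm : m' ∣ m) {ψ : ℕ → ℕ → ℕ → ℤ} (h : Cyc q n m ψ) :
    Cyc q n m' ψ := fun i j l hs => hm.trans (h i j l hs)

theorem one_add_pow_modEq (n x : ℕ) {m : ℤ} (hm : m ∣ n) (r : ℕ) :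
    ((1 + (n : ℤ)) ^ x) ^ r ≡ 1 [ZMOD m] := by
  have h1 : (1 + (n : ℤ)) ≡ 1 [ZMOD m] := by
    rw [Int.modEq_iff_dvd]
    have : (1 : ℤ) - (1 + (n : ℤ)) = -n := by ring
    rw [this, dvd_neg]
    exact hm
  have := (h1.pow x).pow r
  simpa using this

theorem two_step {r : ℕ} (hr : 1 ≤ r) (a E n' : ℕ) (ψ : ℕ → ℕ → ℕ → ℤ)
    (hn : 2 ^ (a + 1) ∣ 2 * n') (hC : Cyc 1 (2 * n') ((2 : ℤ) ^ (a + 2)) ψ)
    (hL : Lip 2 1 (2 * n') (a + 1) ψ) (hS : Sym ψ)
    (hE : ∀ x : ℤ, ¬ ((2 : ℕ) : ℤ) ∣ x → x ^ r * x ^ E ≡ 1 [ZMOD ((2 ^ (a + 2) : ℕ) : ℤ)]) :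
    K r 1 (2 * n') ψ ≡ G 2 (2 * n' - 1) ^ r * K r 1 n' (push 2 1 1 (tw 2 r 1 E (-1) ψ))
      [ZMOD (2 : ℤ) ^ (a + 2)] := by
  have hnZ : (2 : ℤ) ^ (a + 1) ∣ ((2 * n' : ℕ) : ℤ) := by exact_mod_cast hn
  set η : ℤ := -(1 + ((2 * n' : ℕ) : ℤ)) with hηdef
  have hη : ∀ k l : ℕ, k + l = 2 * n' → ¬ 2 ∣ k →
      (k : ℤ) ≡ η * l [ZMOD ((2 ^ (a + 2) : ℕ) : ℤ)] := by
    intro k l hkl hk
    rw [Int.modEq_iff_dvd]
    have e : η * (l : ℤ) - k = -(((2 * n' : ℕ) : ℤ) * (l + 1)) := by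
      rw [hηdef, ← hkl]; push_cast; ring
    rw [e, dvd_neg]
    push_cast
    rw [pow_succ]
    apply mul_dvd_mul
    · exact_mod_cast hn
    · have : 2 ∣ l + 1 := by omega
      exact_mod_cast this
  have hstep := K_step Nat.prime_two (Or.inl rfl : (1 = 1 ∨ 1 = 2)) hE η hη ψ
  have hC1 := hC.twist (p := 2) (r := r) (E := E)
  have hL1 := hL.twist (r := r) (E := E)
  have hS1 : Sym (tw 2 r 1 E (-1) ψ) := hS.twist
  have htw : ∀ i j l : ℕ, tw 2 r 1 E η ψ i j l = tw 2 r 1 E (-1) ψ i j l *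
      ((1 + ((2 * n' : ℕ) : ℤ)) ^ ((i + j + 1 - 1) - (i + j + 1 - 1) / 2)) ^ r := by
    intro i j l
    simp only [tw, hηdef, neg_neg, one_pow, mul_one]
  have h2 : (2 : ℤ) ^ (a + 1) ∣ K r 2 n' (push 2 1 2 (tw 2 r 1 E η ψ)) := by
    have hcong : K r 2 n' (push 2 1 2 (tw 2 r 1 E η ψ)) ≡
        K r 2 n' (push 2 1 2 (tw 2 r 1 E (-1) ψ)) [ZMOD (2 : ℤ) ^ (a + 1)] := by
      apply K_congr (by norm_num)
      intro i j l _
      unfold push
      apply Int.ModEq.sum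
      intro d _
      rw [htw]
      have h1 := one_add_pow_modEq (2 * n')
        ((2 * i + d.1 + (2 * j + d.2.1) + 1 - 1) - (2 * i + d.1 + (2 * j + d.2.1) + 1 - 1) / 2)
        hnZ r
      calc _ ≡ tw 2 r 1 E (-1) ψ (2 * i + d.1) (2 * j + d.2.1) (2 * l + d.2.2) * 1
            [ZMOD (2 : ℤ) ^ (a + 1)] := (Int.ModEq.refl _).mul h1
        _ = _ := mul_one _
    rw [Int.ModEq.dvd_iff hcong]
    obtain ⟨hdiv, hC2, hL2⟩ := quo_spec Nat.prime_two (q' := 2) (b := a + 1) (a := a)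
      (Or.inl rfl) (Or.inr rfl) (by omega)
      (hC1.mono (pow_dvd_pow _ (by omega : a + 1 ≤ a + 2))) hL1
    rw [K_eq_of_eq (by norm_num) hdiv, K_smul, pow_succ']
    apply mul_dvd_mul_left
    have hn' : 2 ^ a ∣ n' := by
      rw [pow_succ'] at hn
      exact Nat.dvd_of_mul_dvd_mul_left (by norm_num) hn
    exact main_dvd Nat.prime_two r a 2 n' _ (Or.inr rfl) hn' hC2 hL2
  have h3 : (2 : ℤ) ^ (a + 2) ∣ ((2 : ℕ) : ℤ) ^ r * K r 2 n' (push 2 1 2 (tw 2 r 1 E η ψ)) := by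
    rw [pow_succ']
    apply mul_dvd_mul _ h2
    exact dvd_pow_self _ (by omega)
  have h4 : K r 1 n' (push 2 1 1 (tw 2 r 1 E η ψ)) ≡
      K r 1 n' (push 2 1 1 (tw 2 r 1 E (-1) ψ)) [ZMOD (2 : ℤ) ^ (a + 2)] := by
    apply K_congr le_rfl
    intro i j l hs
    have hD : D 2 1 1 = {(1,0,0),(0,1,0),(0,0,1)} := by decide
    unfold push
    rw [hD, Finset.sum_insert (by decide), Finset.sum_insert (by decide), Finset.sum_singleton,
      Finset.sum_insert (by decide), Finset.sum_insert (by decide), Finset.sum_singleton]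
    simp only [htw, add_zero]
    set X1 := tw 2 r 1 E (-1) ψ (2 * i + 1) (2 * j) (2 * l) with hX1
    set X2 := tw 2 r 1 E (-1) ψ (2 * i) (2 * j + 1) (2 * l) with hX2
    set X3 := tw 2 r 1 E (-1) ψ (2 * i) (2 * j) (2 * l + 1) with hX3
    have e12 : 2 * i + 1 + 2 * j = 2 * i + (2 * j + 1) := by ring
    rw [e12]
    set c := ((1 + ((2 * n' : ℕ) : ℤ)) ^
      ((2 * i + (2 * j + 1) + 1 - 1) - (2 * i + (2 * j + 1) + 1 - 1) / 2)) ^ r with hc
    set c' := ((1 + ((2 * n' : ℕ) : ℤ)) ^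
      ((2 * i + 2 * j + 1 - 1) - (2 * i + 2 * j + 1 - 1) / 2)) ^ r with hc'
    have hc1 : (2 : ℤ) ^ (a + 1) ∣ 1 - c := (one_add_pow_modEq (2 * n') _ hnZ r).dvd
    have hc2 : (2 : ℤ) ^ (a + 1) ∣ 1 - c' := (one_add_pow_modEq (2 * n') _ hnZ r).dvd
    have m0 : ∀ u v : ℕ, 2 * u ≡ 2 * v [MOD 2 ^ 1] := by intro u v; simp [Nat.ModEq]
    have m1 : ∀ u v : ℕ, 2 * u + 1 ≡ 2 * v + 1 [MOD 2 ^ 1] := by
      intro u v; simp [Nat.ModEq, Nat.add_mod]
    have hX12 : (2 : ℤ) ∣ X1 + X2 := by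
      have h5 : X1 ≡ X2 [ZMOD ((2 : ℕ) : ℤ) ^ 1] := by
        rw [hX2, hS1 (2 * i) (2 * j + 1) (2 * l)]
        exact hL1 1 (by omega) _ _ _ _ _ _ (by omega) (by omega) (m1 _ _) (m0 _ _) (m0 _ _)
      have h6 := h5.dvd
      simp only [Nat.cast_ofNat, pow_one] at h6
      obtain ⟨t, ht⟩ := h6
      exact ⟨X1 + t, by linarith⟩
    have hX3 : (2 : ℤ) ∣ X3 := by
      have h5 := hC1 (2 * i) (2 * j) (2 * l + 1) (by omega)
      have h6 : tw 2 r 1 E (-1) ψ (2 * j) (2 * l + 1) (2 * i) ≡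
          tw 2 r 1 E (-1) ψ (2 * l + 1) (2 * i) (2 * j) [ZMOD ((2 : ℕ) : ℤ) ^ 1] := by
        rw [hS1 (2 * j) (2 * l + 1) (2 * i)]
        exact hL1 1 (by omega) _ _ _ _ _ _ (by omega) (by omega) (m1 _ _) (m0 _ _) (m0 _ _)
      have h7 := h6.dvd
      simp only [Nat.cast_ofNat, pow_one] at h7
      have h8 : (2 : ℤ) ∣ tw 2 r 1 E (-1) ψ (2 * i) (2 * j) (2 * l + 1) +
          tw 2 r 1 E (-1) ψ (2 * j) (2 * l + 1) (2 * i) +
          tw 2 r 1 E (-1) ψ (2 * l + 1) (2 * i) (2 * j) :=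
        (dvd_pow_self (2 : ℤ) (by omega)).trans h5
      obtain ⟨t, ht⟩ := h7
      obtain ⟨u, hu⟩ := h8
      exact ⟨u - tw 2 r 1 E (-1) ψ (2 * j) (2 * l + 1) (2 * i) - t, by linarith⟩
    rw [Int.modEq_iff_dvd]
    have e : X1 + (X2 + X3) - (X1 * c + (X2 * c + X3 * c')) =
        (1 - c) * (X1 + X2) + (1 - c') * X3 := by ring
    rw [e, pow_succ]
    exact dvd_add (mul_dvd_mul hc1 hX12) (mul_dvd_mul hc2 hX3)
  push_cast at hstep
  calc K r 1 (2 * n') ψ ≡ _ [ZMOD (2 : ℤ) ^ (a + 2)] := hstep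
    _ ≡ G 2 (2 * n' - 1) ^ r * (K r 1 n' (push 2 1 1 (tw 2 r 1 E (-1) ψ)) + 0)
        [ZMOD (2 : ℤ) ^ (a + 2)] := by
        apply (Int.ModEq.refl _).mul
        apply h4.add
        rw [Int.modEq_zero_iff_dvd]
        exact_mod_cast h3
    _ = _ := by rw [add_zero]

theorem main_two {r : ℕ} (hr : 1 ≤ r) (a : ℕ) : ∀ (n : ℕ) (ψ : ℕ → ℕ → ℕ → ℤ),
    2 ^ (a + 1) ∣ n → Cyc 1 n ((2 : ℤ) ^ (a + 2)) ψ → Lip 2 1 n (a + 1) ψ → Sym ψ →
    (2 : ℤ) ^ (a + 2) ∣ K r 1 n ψ := by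
  induction a with
  | zero =>
    intro n ψ hn hC hL hS
    obtain ⟨n', rfl⟩ : 2 ∣ n := by simpa using hn
    obtain ⟨E, hE⟩ := exists_E Nat.prime_two (0 + 2) r
    have h1 := two_step hr 0 E n' ψ hn hC hL hS hE
    have hC1 := hC.twist (p := 2) (r := r) (E := E)
    have hL1 := hL.twist (r := r) (E := E)
    have hS1 : Sym (tw 2 r 1 E (-1) ψ) := hS.twist
    rw [Int.ModEq.dvd_iff h1]
    apply Dvd.dvd.mul_left
    have e4 : (2 : ℤ) ^ (0 + 2) = 2 * 2 := by norm_num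
    rw [e4]
    apply K_base hr 2 hS1.push
    · intro i j l hs
      have := push_dvd Nat.prime_two (q := 1) (q' := 1) (Or.inl rfl) (Or.inl rfl)
        (dvd_pow_self (2 : ℤ) (by omega)) hC1 hL1 i j l hs
      exact_mod_cast this
    · intro l hs
      have hD : D 2 1 1 = {(1,0,0),(0,1,0),(0,0,1)} := by decide
      unfold push
      rw [hD, Finset.sum_insert (by decide), Finset.sum_insert (by decide), Finset.sum_singleton]
      simp only [mul_zero, zero_add, add_zero]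
      have h5 := hC1 0 0 (2 * l + 1) (by omega)
      rw [hS1 0 (2 * l + 1) 0, e4] at h5
      have h6 : tw 2 r 1 E (-1) ψ 1 0 (2 * l) ≡
          tw 2 r 1 E (-1) ψ (2 * l + 1) 0 0 [ZMOD ((2 : ℕ) : ℤ) ^ 1] := by
        exact hL1 1 (by omega) _ _ _ _ _ _ (by omega) (by omega)
          (by simp [Nat.ModEq, Nat.add_mod]) (by simp [Nat.ModEq]) (by simp [Nat.ModEq])
      have h7 := h6.dvd
      simp only [Nat.cast_ofNat, pow_one] at h7
      rw [hS1 0 1 (2 * l)]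
      obtain ⟨t, ht⟩ := h7
      obtain ⟨u, hu⟩ := h5
      exact ⟨u - t, by linarith⟩
  | succ a ih =>
    intro n ψ hn hC hL hS
    obtain ⟨n', rfl⟩ : 2 ∣ n := (dvd_pow_self 2 (Nat.succ_ne_zero (a + 1))).trans hn
    obtain ⟨E, hE⟩ := exists_E Nat.prime_two (a + 1 + 2) r
    have h1 := two_step hr (a + 1) E n' ψ hn hC hL hS hE
    have hC1 := hC.twist (p := 2) (r := r) (E := E)
    have hL1 := hL.twist (r := r) (E := E)
    have hS1 : Sym (tw 2 r 1 E (-1) ψ) := hS.twist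
    rw [Int.ModEq.dvd_iff h1]
    apply Dvd.dvd.mul_left
    obtain ⟨hdiv, hC2, hL2⟩ := quo_spec Nat.prime_two (q' := 1) (b := a + 1 + 2) (a := a + 1)
      (Or.inl rfl) (Or.inl rfl) (by omega) hC1 hL1
    rw [K_eq_of_eq le_rfl hdiv, K_smul, pow_succ']
    apply mul_dvd_mul_left
    have hn' : 2 ^ (a + 1) ∣ n' := by
      rw [pow_succ'] at hn
      exact Nat.dvd_of_mul_dvd_mul_left (by norm_num) hn
    refine ih n' _ hn' hC2 hL2 ?_
    intro i j l
    simp only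
    rw [hS1.push i j l]

/-! ## The original sum -/

/-- `f_k^{(r)} = ∑_j binom(k,j)^r` -/
def f (r k : ℕ) : ℤ := ∑ j ∈ range (k + 1), (k.choose j : ℤ) ^ r

/-- `S_r(n) = ∑_{k<n} (-1)^{rk} (3k+2) f_k^{(r)}` -/
def S (r n : ℕ) : ℤ := ∑ k ∈ range n, (-1) ^ (r * k) * (3 * (k : ℤ) + 2) * f r k

/-- the linear weight -/
def psi0 : ℕ → ℕ → ℕ → ℤ := fun i j _ => 3 * ((i : ℤ) + j) + 2

theorem S_eq_K (r n : ℕ) : S r n = K r 1 n psi0 := by
  unfold S K f psi0
  simp only [Finset.mul_sum]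
  rw [Finset.sum_sigma']
  refine Finset.sum_nbij' (fun x => (x.2, x.1 - x.2, n - 1 - x.1)) (fun x => ⟨x.1 + x.2.1, x.1⟩)
    ?_ ?_ ?_ ?_ ?_
  · rintro ⟨k, j⟩ hx
    rw [mem_sigma, mem_range, mem_range] at hx
    rw [mem_T le_rfl]
    simp only at hx ⊢
    omega
  · rintro ⟨i, j, l⟩ hx
    rw [mem_T le_rfl] at hx
    rw [mem_sigma, mem_range, mem_range]
    simp only at hx ⊢
    omega
  · rintro ⟨k, j⟩ hx
    rw [mem_sigma, mem_range, mem_range] at hx
    simp only at hx ⊢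
    have : j + (k - j) = k := by omega
    rw [this]
  · rintro ⟨i, j, l⟩ hx
    rw [mem_T le_rfl] at hx
    simp only at hx ⊢
    have h1 : i + j - i = j := by omega
    have h2 : n - 1 - (i + j) = l := by omega
    rw [h1, h2]
  · rintro ⟨k, j⟩ hx
    rw [mem_sigma, mem_range, mem_range] at hx
    simp only at hx ⊢
    have h1 : j + (k - j) = k := by omega
    have h2 : ((k - j : ℕ) : ℤ) = (k : ℤ) - j := by
      rw [Nat.cast_sub (by omega)]
    rw [w_one, h1, h2, Nat.add_sub_cancel]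
    ring

theorem psi0_cyc (n : ℕ) {m : ℤ} (hm : m ∣ 2 * (n : ℤ)) : Cyc 1 n m psi0 := by
  intro i j l hs
  have : psi0 i j l + psi0 j l i + psi0 l i j = 3 * (2 * (n : ℤ)) := by
    rw [← hs]; unfold psi0; push_cast; ring
  rw [this]
  exact hm.mul_left _

theorem psi0_lip (p n a : ℕ) : Lip p 1 n a psi0 := by
  intro s _ i j l i' j' l' _ _ hi hj _
  unfold psi0
  have h1 : (i : ℤ) ≡ i' [ZMOD (p : ℤ) ^ s] := by
    have := (Int.natCast_modEq_iff).mpr hi
    exact_mod_cast this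
  have h2 : (j : ℤ) ≡ j' [ZMOD (p : ℤ) ^ s] := by
    have := (Int.natCast_modEq_iff).mpr hj
    exact_mod_cast this
  exact ((h1.add h2).mul_left 3).add_right 2

theorem psi0_sym : Sym psi0 := by
  intro i j l
  unfold psi0
  ring

theorem dvd_of_pos {r : ℕ} (hr : 1 ≤ r) (n : ℕ) : (2 * (n : ℤ)) ∣ S r n := by
  rw [S_eq_K]
  have hnat : 2 * n ∣ (K r 1 n psi0).natAbs := by
    rw [Nat.dvd_iff_prime_pow_dvd_dvd]
    intro p k hp hk
    rw [← Int.natCast_dvd]
    push_cast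
    by_cases h2 : p = 2
    · subst h2
      rcases Nat.eq_zero_or_pos k with rfl | hkpos
      · simp
      obtain ⟨b, rfl⟩ : ∃ b, k = b + 1 := ⟨k - 1, by omega⟩
      rw [pow_succ'] at hk
      have hk' : 2 ^ b ∣ n := Nat.dvd_of_mul_dvd_mul_left (by norm_num) hk
      rcases Nat.eq_zero_or_pos b with rfl | hbpos
      · have := K_base hr 1 (n := n) psi0_sym (fun _ _ _ _ => one_dvd _)
          (fun l _ => by simp [psi0])
        simpa using this
      · obtain ⟨a, rfl⟩ : ∃ a, b = a + 1 := ⟨b - 1, by omega⟩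
        have := main_two hr a n psi0 hk' (psi0_cyc n (by
          rw [pow_succ']
          apply mul_dvd_mul_left
          exact_mod_cast hk')) (psi0_lip 2 n (a + 1)) psi0_sym
        exact_mod_cast this
    · have hcop : Nat.Coprime (p ^ k) 2 := by
        apply Nat.Coprime.pow_left
        exact (Nat.coprime_primes hp Nat.prime_two).mpr h2
      have hk' : p ^ k ∣ n := hcop.dvd_of_dvd_mul_left hk
      apply main_dvd hp r k 1 n psi0 (Or.inl rfl) hk' _ (psi0_lip p n k)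
      apply psi0_cyc
      apply Dvd.dvd.mul_left
      exact_mod_cast hk'
  have := Int.natCast_dvd.mpr hnat
  push_cast at this
  exact this

theorem S_zero_left (n : ℕ) : S 0 n = (n : ℤ) * (n * (n + 1)) := by
  induction n with
  | zero => simp [S]
  | succ n ih =>
    unfold S at ih ⊢
    rw [Finset.sum_range_succ, ih]
    simp [f]
    ring

/-- For all `r ≥ 0` and `n ≥ 1`, the integer
`S_r(n) = ∑_{k=0}^{n-1} (-1)^{rk} (3k+2) ∑_{j=0}^{k} binom(k,j)^r` is divisible by `2n`. -/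
theorem result (r n : ℕ) (_hn : 1 ≤ n) : (2 * (n : ℤ)) ∣
    ∑ k ∈ range n, (-1 : ℤ) ^ (r * k) * (3 * (k : ℤ) + 2) *
      ∑ j ∈ range (k + 1), (k.choose j : ℤ) ^ r := by
  change (2 * (n : ℤ)) ∣ S r n
  rcases Nat.eq_zero_or_pos r with rfl | hr
  · rw [S_zero_left]
    have h1 : (2 : ℤ) ∣ (n : ℤ) * (n + 1) := by
      have := (Nat.even_mul_succ_self n).two_dvd
      exact_mod_cast this
    rw [mul_comm 2 (n : ℤ)]
    exact mul_dvd_mul_left _ h1
  · exact dvd_of_pos hr n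

end Pool.Agent.Results.MP_ede29a_nt.WeightedPowerSums
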